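import Mathlib

set_option autoImplicit false

namespace Pool.Agent.Results.MP_2a1499_al.CommutativeSquareD4

universe u

/-- A finite quiver: a finite set of vertices, a finite set of arrows, sources and targets. -/
structure FinQuiver where
  V : Type
  A : Type
  finV : Finite V
  finA : Finite A
  src : A → V
  tgt : A → V

/-- No oriented cycle. -/
def FinQuiver.Acyclic (Q : FinQuiver) : Prop :=
  ∀ v : Q.V, ¬ Relation.TransGen (fun x y => ∃ a : Q.A, Q.src a = x ∧ Q.tgt a = y) v v

/-- A finite-dimensional representation of `Q` over `k`, that is, a finite-dimensional `kQ`-module: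
the space `k ^ (dim v)` at every vertex `v` and a linear map, given by its matrix, for every arrow. -/
structure Rep (k : Type u) (Q : FinQuiver) where
  dim : Q.V → ℕ
  map : ∀ a : Q.A, Matrix (Fin (dim (Q.tgt a))) (Fin (dim (Q.src a))) k

variable {k : Type u} [Field k] {Q : FinQuiver}

/-- Families of linear maps from `E` to `F`, one for each vertex. -/
def C0 (E F : Rep k Q) : Type u := ∀ v : Q.V, Matrix (Fin (F.dim v)) (Fin (E.dim v)) k

/-- Families of linear maps, one for each arrow, from the source space of `E` to the target space of `F`. -/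
def C1 (E F : Rep k Q) : Type u := ∀ a : Q.A, Matrix (Fin (F.dim (Q.tgt a))) (Fin (E.dim (Q.src a))) k

instance instGroupC0 (E F : Rep k Q) : AddCommGroup (C0 E F) := Pi.addCommGroup

instance instModuleC0 (E F : Rep k Q) : Module k (C0 E F) := Pi.module _ _ _

instance instGroupC1 (E F : Rep k Q) : AddCommGroup (C1 E F) := Pi.addCommGroup

instance instModuleC1 (E F : Rep k Q) : Module k (C1 E F) := Pi.module _ _ _

/-- The standard map on a family of linear maps. -/
def dl0 (E F : Rep k Q) (f : C0 E F) : C1 E F := fun a => f (Q.tgt a) * E.map a - F.map a * f (Q.src a)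

theorem dl0_add (E F : Rep k Q) (f g : C0 E F) : dl0 E F (f + g) = dl0 E F f + dl0 E F g := by
  funext a
  change (f (Q.tgt a) + g (Q.tgt a)) * E.map a - F.map a * (f (Q.src a) + g (Q.src a)) =
    (f (Q.tgt a) * E.map a - F.map a * f (Q.src a)) + (g (Q.tgt a) * E.map a - F.map a * g (Q.src a))
  rw [Matrix.add_mul, Matrix.mul_add]
  abel

theorem dl0_smul (E F : Rep k Q) (c : k) (f : C0 E F) : dl0 E F (c • f) = c • dl0 E F f := by
  funext a
  change (c • f (Q.tgt a)) * E.map a - F.map a * (c • f (Q.src a)) =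
    c • (f (Q.tgt a) * E.map a - F.map a * f (Q.src a))
  rw [Matrix.smul_mul, Matrix.mul_smul, smul_sub]

/-- The standard map: its kernel is `Hom(E, F)` and its cokernel is `Ext¹(E, F)`. -/
def dl (E F : Rep k Q) : C0 E F →ₗ[k] C1 E F := ⟨⟨dl0 E F, dl0_add E F⟩, dl0_smul E F⟩

/-- `Hom(E, F)`. -/
def Hom (E F : Rep k Q) : Submodule k (C0 E F) := LinearMap.ker (dl E F)

/-- The families which are zero in `Ext¹(E, F)`. -/
def Bd (E F : Rep k Q) : Submodule k (C1 E F) := LinearMap.range (dl E F)

/-- `Ext¹(E, F)`. -/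
def Ext1 (E F : Rep k Q) : Type u := C1 E F ⧸ Bd E F

instance instGroupExt1 (E F : Rep k Q) : AddCommGroup (Ext1 E F) := Submodule.Quotient.addCommGroup _

instance instModuleExt1 (E F : Rep k Q) : Module k (Ext1 E F) := Submodule.Quotient.module _

theorem hom_comm {E F : Rep k Q} (f : Hom E F) (a : Q.A) :
    f.1 (Q.tgt a) * E.map a = F.map a * f.1 (Q.src a) := by
  have h : dl E F f.1 = 0 := f.2
  have h' := congrFun h a
  exact sub_eq_zero.1 h'

theorem mem_hom {E F : Rep k Q} (f : C0 E F) (h : ∀ a, f (Q.tgt a) * E.map a = F.map a * f (Q.src a)) :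
    f ∈ Hom E F := by
  change dl E F f = 0
  funext a
  exact sub_eq_zero.2 (h a)

theorem homComp_mem {E F G : Rep k Q} (f : Hom E F) (g : Hom F G) :
    (fun v => g.1 v * f.1 v : C0 E G) ∈ Hom E G := by
  refine mem_hom _ fun a => ?_
  rw [Matrix.mul_assoc, hom_comm f a, ← Matrix.mul_assoc, hom_comm g a, Matrix.mul_assoc]

/-- Composition of morphisms. -/
def homComp {E F G : Rep k Q} (f : Hom E F) (g : Hom F G) : Hom E G :=
  ⟨fun v => g.1 v * f.1 v, homComp_mem f g⟩

theorem id_mem (E : Rep k Q) : (fun _ => 1 : C0 E E) ∈ Hom E E :=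
  mem_hom _ fun a => by rw [Matrix.one_mul, Matrix.mul_one]

/-- Push-out of a family along a morphism. -/
def pushF {E F G : Rep k Q} (g : Hom F G) (c : C1 E F) : C1 E G := fun a => g.1 (Q.tgt a) * c a

/-- Pull-back of a family along a morphism. -/
def pullF {E F G : Rep k Q} (f : Hom E F) (c : C1 F G) : C1 E G := fun a => c a * f.1 (Q.src a)

theorem pushF_add {E F G : Rep k Q} (g : Hom F G) (c c' : C1 E F) : pushF g (c + c') = pushF g c + pushF g c' := by
  funext a
  change g.1 (Q.tgt a) * (c a + c' a) = g.1 (Q.tgt a) * c a + g.1 (Q.tgt a) * c' a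
  exact Matrix.mul_add _ _ _

theorem pushF_smul {E F G : Rep k Q} (g : Hom F G) (r : k) (c : C1 E F) : pushF g (r • c) = r • pushF g c := by
  funext a
  change g.1 (Q.tgt a) * (r • c a) = r • (g.1 (Q.tgt a) * c a)
  exact Matrix.mul_smul _ _ _

theorem pullF_add {E F G : Rep k Q} (f : Hom E F) (c c' : C1 F G) : pullF f (c + c') = pullF f c + pullF f c' := by
  funext a
  change (c a + c' a) * f.1 (Q.src a) = c a * f.1 (Q.src a) + c' a * f.1 (Q.src a)
  exact Matrix.add_mul _ _ _

theorem pullF_smul {E F G : Rep k Q} (f : Hom E F) (r : k) (c : C1 F G) : pullF f (r • c) = r • pullF f c := by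
  funext a
  change (r • c a) * f.1 (Q.src a) = r • (c a * f.1 (Q.src a))
  exact Matrix.smul_mul _ _ _

/-- Push-out of a family along a morphism, as a linear map. -/
def push0 {E F G : Rep k Q} (g : Hom F G) : C1 E F →ₗ[k] C1 E G := ⟨⟨pushF g, pushF_add g⟩, pushF_smul g⟩

/-- Pull-back of a family along a morphism, as a linear map. -/
def pull0 {E F G : Rep k Q} (f : Hom E F) : C1 F G →ₗ[k] C1 E G := ⟨⟨pullF f, pullF_add f⟩, pullF_smul f⟩

theorem push_le {E F G : Rep k Q} (g : Hom F G) : Bd E F ≤ (Bd E G).comap (push0 g) := by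
  rintro _ ⟨f, rfl⟩
  refine ⟨fun v => g.1 v * f v, ?_⟩
  funext a
  change g.1 (Q.tgt a) * f (Q.tgt a) * E.map a - G.map a * (g.1 (Q.src a) * f (Q.src a)) =
    g.1 (Q.tgt a) * (f (Q.tgt a) * E.map a - F.map a * f (Q.src a))
  rw [Matrix.mul_sub, Matrix.mul_assoc, ← Matrix.mul_assoc (G.map a), ← hom_comm g a, Matrix.mul_assoc]

theorem pull_le {E F G : Rep k Q} (f : Hom E F) : Bd F G ≤ (Bd E G).comap (pull0 f) := by
  rintro _ ⟨g, rfl⟩
  refine ⟨fun v => g v * f.1 v, ?_⟩
  funext a
  change g (Q.tgt a) * f.1 (Q.tgt a) * E.map a - G.map a * (g (Q.src a) * f.1 (Q.src a)) =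
    (g (Q.tgt a) * F.map a - G.map a * g (Q.src a)) * f.1 (Q.src a)
  rw [Matrix.sub_mul, Matrix.mul_assoc, hom_comm f a, Matrix.mul_assoc, Matrix.mul_assoc]

/-- Push-out of an extension class along a morphism. -/
def push {E F G : Rep k Q} (g : Hom F G) : Ext1 E F →ₗ[k] Ext1 E G :=
  Submodule.mapQ (Bd E F) (Bd E G) (push0 g) (push_le g)

/-- Pull-back of an extension class along a morphism. -/
def pull {E F G : Rep k Q} (f : Hom E F) : Ext1 F G →ₗ[k] Ext1 E G :=
  Submodule.mapQ (Bd F G) (Bd E G) (pull0 f) (pull_le f)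

/-- `Hom(E, F) ⊕ Ext¹(E, F)`, the morphisms from `E` to `F ⊕ ΣF` in the derived category. -/
def H (E F : Rep k Q) : Type u := Hom E F × Ext1 E F

instance instGroupH (E F : Rep k Q) : AddCommGroup (H E F) := Prod.instAddCommGroup

instance instModuleH (E F : Rep k Q) : Module k (H E F) := Prod.instModule

/-- Composition of morphisms and extensions: morphisms are composed, extensions are pulled back or pushed
out along morphisms, and the product of two extensions is zero as `kQ` is hereditary. -/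
def comp {E F G : Rep k Q} (x : H E F) (y : H F G) : H E G :=
  (homComp x.1 y.1, push y.1 x.2 + pull x.1 y.2)

/-- The identity. -/
def idH (E : Rep k Q) : H E E := (⟨fun _ => 1, id_mem E⟩, 0)

/-- The family of linear maps is an isomorphism. -/
def IsIso {E F : Rep k Q} (f : C0 E F) : Prop := ∃ g : C0 F E, ∀ v, g v * f v = 1 ∧ f v * g v = 1

/-- Indecomposable: nonzero, and not the direct sum of two nonzero subrepresentations. -/
def Indecomposable (E : Rep k Q) : Prop :=
  (∃ v, E.dim v ≠ 0) ∧ ∀ A B : ∀ v : Q.V, Submodule k (Fin (E.dim v) → k),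
    (∀ a, ∀ x ∈ A (Q.src a), (E.map a).mulVec x ∈ A (Q.tgt a)) →
    (∀ a, ∀ x ∈ B (Q.src a), (E.map a).mulVec x ∈ B (Q.tgt a)) →
    (∀ v, IsCompl (A v) (B v)) → (∀ v, A v = ⊥) ∨ ∀ v, B v = ⊥

/-- Exceptional: indecomposable without self-extensions. -/
def Exceptional (E : Rep k Q) : Prop := Indecomposable E ∧ Subsingleton (Ext1 E E)

/-- Exceptional sequences. -/
def IsExceptionalSequence {n : ℕ} (E : Fin n → Rep k Q) : Prop :=
  (∀ i, Exceptional (E i)) ∧ ∀ i j, j < i → Subsingleton (Hom (E i) (E j)) ∧ Subsingleton (Ext1 (E i) (E j))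

/-- Exceptional collections: some ordering is an exceptional sequence. -/
def IsExceptionalCollection {ι : Type} (X : ι → Rep k Q) : Prop :=
  ∃ (n : ℕ) (e : Fin n ≃ ι), IsExceptionalSequence (fun i => X (e i))

/-- The radical of `Hom(X i, X j) ⊕ Ext¹(X i, X j)`, for indecomposable `X i` and `X j`: the pairs whose
first component is not an isomorphism. -/
def rad {ι : Type} (X : ι → Rep k Q) (i j : ι) : Submodule k (H (X i) (X j)) :=
  Submodule.span k {x | ¬ IsIso x.1.1}

/-- The square of the radical: what factors through the members of the collection by radical elements. -/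
def rad2 {ι : Type} (X : ι → Rep k Q) (i j : ι) : Submodule k (H (X i) (X j)) :=
  Submodule.span k {z | ∃ l, ∃ x ∈ rad X i l, ∃ y ∈ rad X l j, z = comp x y}

/-- Paths of the quiver with the vertices `ι` and the arrows `Arr i j` from `i` to `j`. -/
inductive Path {ι : Type} (Arr : ι → ι → Type) : ι → ι → Type
  | nil (i : ι) : Path Arr i i
  | cons {i j l : ι} (p : Path Arr i j) (a : Arr j l) : Path Arr i l

/-- Concatenation of paths. -/
def Path.append {ι : Type} {Arr : ι → ι → Type} {i j : ι} (p : Path Arr i j) :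
    ∀ {l : ι}, Path Arr j l → Path Arr i l
  | _, .nil _ => p
  | _, .cons q a => .cons (p.append q) a

/-- Length of a path. -/
def Path.length {ι : Type} {Arr : ι → ι → Type} {i : ι} : ∀ {j : ι}, Path Arr i j → ℕ
  | _, .nil _ => 0
  | _, .cons q _ => q.length + 1

/-- The family `x` is a basis of `M` modulo its submodule `N`. -/
def IsBasisMod {V α : Type*} [AddCommGroup V] [Module k V] (M N : Submodule k V) (x : α → V) : Prop :=
  (∀ a, x a ∈ M) ∧ LinearIndependent k (fun a => N.mkQ (x a)) ∧ M ≤ Submodule.span k (Set.range x) ⊔ N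

/-- A Hom-Ext quiver of `X`: the arrows from `i` to `j` are morphisms or extensions from `X i` to `X j`
which form a basis of the radical modulo its square. -/
structure HomExtQuiver {ι : Type} (X : ι → Rep k Q) where
  Arr : ι → ι → Type
  el : ∀ i j : ι, Arr i j → H (X i) (X j)
  homogeneous : ∀ (i j : ι) (a : Arr i j), (el i j a).1 = 0 ∨ (el i j a).2 = 0
  basis : ∀ i j : ι, IsBasisMod (rad X i j) (rad2 X i j) (el i j)

/-- The value of a path. -/
def ev {ι : Type} {X : ι → Rep k Q} (G : HomExtQuiver X) {i : ι} :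
    ∀ {j : ι}, Path G.Arr i j → H (X i) (X j)
  | _, .nil _ => idH (X i)
  | _, .cons p a => comp (ev G p) (G.el _ _ a)

/-- The relations: the linear combinations of paths from `i` to `j` whose value is zero. -/
noncomputable def R {ι : Type} {X : ι → Rep k Q} (G : HomExtQuiver X) (i j : ι) :
    Submodule k (Path G.Arr i j →₀ k) :=
  LinearMap.ker (Finsupp.linearCombination k (fun p : Path G.Arr i j => ev G p))

/-- Two-sided ideals of the path algebra, given by their components. -/
def IsIdeal {ι : Type} {Arr : ι → ι → Type} (I : ∀ i j : ι, Submodule k (Path Arr i j →₀ k)) : Prop :=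
  ∀ (i i' j j' : ι) (p : Path Arr i' i) (q : Path Arr j j'), ∀ x ∈ I i j,
    Finsupp.mapDomain (fun r : Path Arr i j => (p.append r).append q) x ∈ I i' j'

/-- The family `I` contains the paths of `S`. -/
def Contains {ι : Type} {Arr : ι → ι → Type} (S : ∀ i j : ι, Set (Path Arr i j))
    (I : ∀ i j : ι, Submodule k (Path Arr i j →₀ k)) : Prop :=
  ∀ (i j : ι), ∀ p ∈ S i j, Finsupp.single p (1 : k) ∈ I i j

/-- The ideal of relations is generated by a set of paths of length at least two. -/
def MonomialRelations {ι : Type} {X : ι → Rep k Q} (G : HomExtQuiver X) : Prop :=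
  ∃ S : ∀ i j : ι, Set (Path G.Arr i j),
    (∀ (i j : ι), ∀ p ∈ S i j, 2 ≤ p.length) ∧ Contains S (R G) ∧
    ∀ I : ∀ i j : ι, Submodule k (Path G.Arr i j →₀ k), IsIdeal I → Contains S I → ∀ i j, R G i j ≤ I i j

/-- The quiver of type `D₄`: three vertices `1, 2, 3`, each with an arrow to the vertex `0`. -/
def d4 : FinQuiver where
  V := Fin 4
  A := Fin 3
  finV := inferInstance
  finA := inferInstance
  src := fun a => a.succ
  tgt := fun _ => 0

/-! ### Thin representations of `d4` -/

/-- The matrix all of whose entries are one. -/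
def J (k : Type u) [Field k] (e d : ℕ) : Matrix (Fin e) (Fin d) k := fun _ _ => 1

/-- The sum of the entries. -/
def sm {e d : ℕ} (M : Matrix (Fin e) (Fin d) k) : k := ∑ j, ∑ i, M j i

theorem sm_add {e d : ℕ} (M N : Matrix (Fin e) (Fin d) k) : sm (M + N) = sm M + sm N := by
  simp [sm, Finset.sum_add_distrib]

theorem sm_smul {e d : ℕ} (c : k) (M : Matrix (Fin e) (Fin d) k) : sm (c • M) = c * sm M := by
  simp [sm, Finset.mul_sum]

theorem eq_smul_J {e d : ℕ} (he : e ≤ 1) (hd : d ≤ 1) (M : Matrix (Fin e) (Fin d) k) : M = sm M • J k e d := by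
  funext j i
  obtain rfl | rfl : e = 0 ∨ e = 1 := by omega
  · exact j.elim0
  obtain rfl | rfl : d = 0 ∨ d = 1 := by omega
  · exact i.elim0
  rw [Subsingleton.elim j 0, Subsingleton.elim i 0]
  simp [sm, J]

theorem J_mul (g e d : ℕ) : J k g e * J k e d = (e : k) • J k g d := by
  funext j i
  simp [J, Matrix.mul_apply]

theorem J_eq_zero {e d : ℕ} (h : d = 0 ∨ e = 0) : J k e d = 0 := by
  funext j i
  rcases h with rfl | rfl
  · exact i.elim0
  · exact j.elim0

theorem J_ne {e d : ℕ} (hd : d = 1) (he : e = 1) : J k e d ≠ 0 := by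
  subst hd he
  intro h
  have h1 := congrFun (congrFun h 0) 0
  simp [J] at h1

/-- The representation with the dimensions `S` all of whose maps are `J`. -/
def thin (k : Type u) [Field k] (S : Fin 4 → ℕ) : Rep k d4 where
  dim := S
  map := fun a => J k (S 0) (S a.succ)

theorem dl_thin (S S' : Fin 4 → ℕ) (φ : Fin 4 → k) (a : Fin 3) :
    dl (thin k S) (thin k S') (fun v : Fin 4 => φ v • J k (S' v) (S v)) a =
      (φ 0 * S 0 - φ a.succ * S' a.succ) • J k (S' 0) (S a.succ) := by
  change ((φ 0 • J k (S' 0) (S 0)) * (J k (S 0) (S a.succ)) -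
    (J k (S' 0) (S' a.succ)) * (φ a.succ • J k (S' a.succ) (S a.succ))) = _
  rw [Matrix.smul_mul, Matrix.mul_smul, J_mul, J_mul, smul_smul, smul_smul, ← sub_smul]

/-- The coefficient of a family of maps at a vertex. -/
def cf {S S' : Fin 4 → ℕ} (f : C0 (thin k S) (thin k S')) (v : Fin 4) : k :=
  sm (f v : Matrix (Fin (S' v)) (Fin (S v)) k)

theorem eq_cf {S S' : Fin 4 → ℕ} (hS : ∀ v, S v ≤ 1) (hS' : ∀ v, S' v ≤ 1) (f : C0 (thin k S) (thin k S')) :
    f = fun v : Fin 4 => cf f v • J k (S' v) (S v) := by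
  funext v
  exact eq_smul_J (hS' v) (hS v) (f v)

theorem hom_eq {S S' : Fin 4 → ℕ} (hS : ∀ v, S v ≤ 1) (hS' : ∀ v, S' v ≤ 1) (f : Hom (thin k S) (thin k S'))
    (a : Fin 3) (h1 : S a.succ = 1) (h2 : S' 0 = 1) : cf f.1 0 * S 0 = cf f.1 a.succ * S' a.succ := by
  have h : dl (thin k S) (thin k S') f.1 = 0 := f.2
  rw [eq_cf hS hS' f.1] at h
  have h' := congrFun h a
  rw [dl_thin] at h'
  have h'' : (cf f.1 0 * S 0 - cf f.1 a.succ * S' a.succ) • J k (S' 0) (S a.succ) = 0 := h'
  rcases smul_eq_zero.1 h'' with h3 | h3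
  · exact sub_eq_zero.1 h3
  · exact absurd h3 (J_ne h1 h2)

theorem ext_trivial {S S' : Fin 4 → ℕ} (hS : ∀ v, S v ≤ 1) (hS' : ∀ v, S' v ≤ 1)
    (hsol : ∀ c : Fin 3 → k, ∃ φ : Fin 4 → k, ∀ a : Fin 3, S a.succ = 1 → S' 0 = 1 →
      φ 0 * S 0 - φ a.succ * S' a.succ = c a) : Subsingleton (Ext1 (thin k S) (thin k S')) := by
  change Subsingleton (C1 (thin k S) (thin k S') ⧸ LinearMap.range (dl (thin k S) (thin k S')))
  rw [Submodule.Quotient.subsingleton_iff, LinearMap.range_eq_top]
  intro c
  obtain ⟨φ, hφ⟩ := hsol (fun a => sm (c a : Matrix (Fin (S' 0)) (Fin (S a.succ)) k))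
  refine ⟨fun v : Fin 4 => φ v • J k (S' v) (S v), ?_⟩
  funext a
  refine (dl_thin S S' φ a).trans (Eq.trans ?_ (eq_smul_J (hS' 0) (hS (Fin.succ a)) (c a)).symm)
  by_cases h1 : S (Fin.succ a) = 1
  · by_cases h2 : S' 0 = 1
    · rw [hφ a h1 h2]
      rfl
    · have h3 : S' 0 = 0 := by have := hS' 0; omega
      rw [J_eq_zero (Or.inr h3), smul_zero, smul_zero]
  · have h3 : S (Fin.succ a) = 0 := by have := hS (Fin.succ a); omega
    rw [J_eq_zero (Or.inl h3), smul_zero, smul_zero]

/-- The dimension vectors of the collection. -/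
def dims : Fin 4 → Fin 4 → ℕ := ![![1, 1, 0, 0], ![1, 1, 0, 1], ![1, 1, 1, 0], ![0, 1, 0, 0]]

/-- The collection. -/
def X (k : Type u) [Field k] (i : Fin 4) : Rep k d4 := thin k (dims i)

theorem dims_le (i v : Fin 4) : dims i v ≤ 1 := by
  revert i v; decide

theorem dims_one (i : Fin 4) : dims i 1 = 1 := by
  revert i; decide

theorem dims_zero (i v : Fin 4) (h : v ≠ 1) (h' : dims i v = 1) : dims i 0 = 1 := by
  revert i v; decide

theorem ext_X (i j : Fin 4) : Subsingleton (Ext1 (X k i) (X k j)) := by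
  refine ext_trivial (dims_le i) (dims_le j) fun c => ?_
  obtain ⟨t, ht⟩ : ∃ t : k, t = if dims i 2 = 1 ∧ dims j 2 = 0 then c 1 else
    if dims i 3 = 1 ∧ dims j 3 = 0 then c 2 else 0 := ⟨_, rfl⟩
  refine ⟨![t, t * dims i 0 - c 0, t * dims i 0 - c 1, t * dims i 0 - c 2], fun a => ?_⟩
  rw [ht]
  fin_cases i <;> fin_cases j <;> fin_cases a <;> simp [dims]

/-- The order of the square: `0 < 1, 2 < 3`. -/
def le (i j : Fin 4) : Prop := i = j ∨ i = 0 ∨ j = 3

instance (i j : Fin 4) : Decidable (le i j) := by unfold le; infer_instance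

theorem hom_inj (i j : Fin 4) (f : Hom (X k i) (X k j)) (h : cf f.1 1 = 0) : f = 0 := by
  have he := eq_cf (dims_le i) (dims_le j) f.1
  have h0 : dims i 0 = 1 → dims j 0 = 1 → cf f.1 0 = 0 := by
    intro h1 h2
    have h3 := hom_eq (dims_le i) (dims_le j) f 0 (dims_one i) h2
    rw [h1] at h3
    have h4 : cf f.1 (Fin.succ 0) = 0 := h
    rw [h4] at h3
    simpa using h3
  have hv : ∀ v : Fin 4, dims i v = 1 → dims j v = 1 → cf f.1 v = 0 := by
    intro v h1 h2
    by_cases hv1 : v = 1
    · rw [hv1]; exact h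
    · have h3 := dims_zero i v hv1 h1
      have h4 := dims_zero j v hv1 h2
      rcases Fin.eq_zero_or_eq_succ v with h5 | ⟨a, h5⟩
      · rw [h5]; exact h0 h3 h4
      · rw [h5] at h1 h2 ⊢
        have h6 := hom_eq (dims_le i) (dims_le j) f a h1 h4
        rw [h3, h2, h0 h3 h4] at h6
        simpa using h6.symm
  apply Subtype.ext
  rw [he]
  funext v
  change cf f.1 v • J k (dims j v) (dims i v) = 0
  by_cases h1 : dims i v = 1
  · by_cases h2 : dims j v = 1
    · rw [hv v h1 h2, zero_smul]
    · rw [J_eq_zero (Or.inr (by have := dims_le j v; omega)), smul_zero]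
  · rw [J_eq_zero (Or.inl (by have := dims_le i v; omega)), smul_zero]

theorem cf_zero (i j : Fin 4) (h : ¬ le i j) (f : Hom (X k i) (X k j)) : cf f.1 1 = 0 := by
  have H1 := fun a => hom_eq (dims_le i) (dims_le j) f a
  have h0 := H1 0
  have h1 := H1 1
  have h2 := H1 2
  clear H1
  revert h h0 h1 h2
  generalize cf f.1 0 = c0
  have e1 : cf f.1 (Fin.succ 0) = cf f.1 1 := rfl
  rw [e1]
  generalize cf f.1 1 = c1
  generalize cf f.1 (Fin.succ 1) = c2
  generalize cf f.1 (Fin.succ 2) = c3
  clear f e1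
  fin_cases i <;> fin_cases j <;> simp [dims, le] <;> intros <;> simp_all

/-- The coefficient at the vertex `1`, as a linear map. -/
def th (k : Type u) [Field k] (i j : Fin 4) : H (X k i) (X k j) →ₗ[k] k where
  toFun x := cf x.1.1 1
  map_add' x y := sm_add (x.1.1 (1 : Fin 4)) (y.1.1 (1 : Fin 4))
  map_smul' c x := sm_smul c (x.1.1 (1 : Fin 4))

theorem th_inj {i j : Fin 4} {x y : H (X k i) (X k j)} (h : th k i j x = th k i j y) : x = y := by
  have := ext_X (k := k) i j
  refine Prod.ext ?_ (Subsingleton.elim _ _)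
  rw [← sub_eq_zero]
  refine hom_inj i j _ ?_
  have h1 : th k i j (x - y) = 0 := (LinearMap.map_sub (th k i j) x y).trans (sub_eq_zero.2 h)
  exact h1

theorem th_zero {i j : Fin 4} (h : ¬ le i j) (x : H (X k i) (X k j)) : th k i j x = 0 :=
  cf_zero i j h x.1

theorem sum_comp {g e d : ℕ} (he : e = 1) (M' : Matrix (Fin g) (Fin e) k) (M : Matrix (Fin e) (Fin d) k) :
    sm (M' * M) = sm M * sm M' := by
  subst he
  simp only [sm, Matrix.mul_apply, Finset.univ_unique, Finset.sum_singleton]
  rw [Finset.sum_mul_sum, Finset.sum_comm]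
  exact Finset.sum_congr rfl fun i _ => Finset.sum_congr rfl fun j _ => mul_comm (M' j default) (M default i)

theorem th_comp {i j l : Fin 4} (x : H (X k i) (X k j)) (y : H (X k j) (X k l)) :
    th k i l (comp x y) = th k i j x * th k j l y :=
  sum_comp (dims_one j) (y.1.1 (1 : Fin 4)) (x.1.1 (1 : Fin 4))

theorem sm_one {e : ℕ} (he : e = 1) : sm (1 : Matrix (Fin e) (Fin e) k) = 1 := by
  subst he
  simp [sm]

theorem sm_J {e d : ℕ} (he : e = 1) (hd : d = 1) : sm (J k e d) = 1 := by
  subst he hd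
  simp [sm, J]

theorem th_id (i : Fin 4) : th k i i (idH (X k i)) = 1 := sm_one (dims_one i)

theorem exists_unit (i j : Fin 4) (h : le i j) : ∃ x : H (X k i) (X k j), x.2 = 0 ∧ th k i j x = 1 := by
  have h1 : dl (X k i) (X k j) (fun v : Fin 4 => J k (dims j v) (dims i v)) = 0 := by
    have h2 : (fun v : Fin 4 => J k (dims j v) (dims i v)) = fun v : Fin 4 => (1 : k) • J k (dims j v) (dims i v) := by
      funext v; rw [one_smul]
    rw [h2]
    funext a
    refine (dl_thin (dims i) (dims j) (fun _ => 1) a).trans ?_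
    have h3 : dims i (Fin.succ a) = 0 ∨ dims j 0 = 0 ∨ dims i 0 = dims j (Fin.succ a) := by
      have : ∀ (a : Fin 3) (i j : Fin 4), le i j → dims i a.succ = 0 ∨ dims j 0 = 0 ∨ dims i 0 = dims j a.succ := by
        decide
      exact this a i j h
    rcases h3 with h3 | h3 | h3
    · rw [J_eq_zero (Or.inl h3), smul_zero]; rfl
    · rw [J_eq_zero (Or.inr h3), smul_zero]; rfl
    · rw [h3, sub_self, zero_smul]; rfl
  exact ⟨(⟨_, h1⟩, 0), rfl, sm_J (dims_one j) (dims_one i)⟩

theorem iso_dims {e d : ℕ} (g : Matrix (Fin d) (Fin e) k) (f : Matrix (Fin e) (Fin d) k) (h1 : g * f = 1)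
    (h2 : f * g = 1) : d = e := by
  have h3 := Matrix.trace_mul_comm g f
  have h4 : Function.Injective f.mulVec := fun x y hxy => by
    have h5 := congrArg g.mulVec hxy
    simpa [Matrix.mulVec_mulVec, h1] using h5
  have h6 : Function.Surjective f.mulVec := fun y => ⟨g.mulVec y, by
    rw [Matrix.mulVec_mulVec, h2, Matrix.one_mulVec]⟩
  have h7 := (LinearEquiv.ofBijective f.mulVecLin ⟨h4, h6⟩).finrank_eq
  simpa using h7

theorem dims_inj {i j : Fin 4} (h : ∀ v, dims i v = dims j v) : i = j := by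
  revert i j
  decide

theorem mem_rad_of_ne {i j : Fin 4} (h : i ≠ j) (x : H (X k i) (X k j)) : x ∈ rad (X k) i j := by
  refine Submodule.subset_span fun hb => h ?_
  obtain ⟨g, hg⟩ := hb
  exact dims_inj fun v => iso_dims _ _ (hg v).1 (hg v).2

theorem th_rad_self {i : Fin 4} {x : H (X k i) (X k i)} (hx : x ∈ rad (X k) i i) : th k i i x = 0 := by
  have h1 : rad (X k) i i ≤ LinearMap.ker (th k i i) := by
    refine Submodule.span_le.2 fun y hy => ?_
    by_contra hne
    have hne' : th k i i y ≠ 0 := hne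
    apply hy
    have h2 : y = th k i i y • idH (X k i) := by
      apply th_inj
      refine Eq.trans ?_ (LinearMap.map_smul (th k i i) _ _).symm
      rw [th_id, smul_eq_mul, mul_one]
    refine ⟨fun v => (th k i i y)⁻¹ • (1 : Matrix (Fin (dims i v)) (Fin (dims i v)) k), fun v => ?_⟩
    have h3 : y.1.1 v = th k i i y • (1 : Matrix (Fin (dims i v)) (Fin (dims i v)) k) :=
      congrArg (fun z : H (X k i) (X k i) => z.1.1 v) h2
    rw [h3]
    constructor
    · change ((th k i i y)⁻¹ • (1 : Matrix (Fin (dims i v)) (Fin (dims i v)) k)) *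
        (th k i i y • (1 : Matrix (Fin (dims i v)) (Fin (dims i v)) k)) = 1
      rw [Matrix.smul_mul, Matrix.mul_smul, smul_smul, inv_mul_cancel₀ hne', one_smul, Matrix.one_mul]
    · change (th k i i y • (1 : Matrix (Fin (dims i v)) (Fin (dims i v)) k)) *
        ((th k i i y)⁻¹ • (1 : Matrix (Fin (dims i v)) (Fin (dims i v)) k)) = 1
      rw [Matrix.smul_mul, Matrix.mul_smul, smul_smul, mul_inv_cancel₀ hne', one_smul, Matrix.one_mul]
  exact h1 hx

theorem th_rad2 {i j : Fin 4} (h : ∀ l, l = i ∨ l = j ∨ ¬ le i l ∨ ¬ le l j) {z : H (X k i) (X k j)}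
    (hz : z ∈ rad2 (X k) i j) : th k i j z = 0 := by
  have h1 : rad2 (X k) i j ≤ LinearMap.ker (th k i j) := by
    refine Submodule.span_le.2 ?_
    rintro _ ⟨l, x, hx, y, hy, rfl⟩
    change th k i j (comp x y) = 0
    rw [th_comp]
    rcases h l with rfl | rfl | h2 | h2
    · rw [th_rad_self hx, zero_mul]
    · rw [th_rad_self hy, mul_zero]
    · rw [th_zero h2, zero_mul]
    · rw [th_zero h2, mul_zero]
  exact h1 hz

/-- The covering relations of the square. -/
def cov (i j : Fin 4) : Prop := (i = 0 ∧ (j = 1 ∨ j = 2)) ∨ ((i = 1 ∨ i = 2) ∧ j = 3)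

instance (i j : Fin 4) : Decidable (cov i j) := by unfold cov; infer_instance

theorem cov_le {i j : Fin 4} (h : cov i j) : le i j := by
  revert i j; decide

theorem cov_ne {i j : Fin 4} (h : cov i j) : i ≠ j := by
  revert i j; decide

theorem cov_between {i j : Fin 4} (h : cov i j) : ∀ l, l = i ∨ l = j ∨ ¬ le i l ∨ ¬ le l j := by
  revert i j; decide

/-! ### The relations of an arbitrary Hom-Ext quiver of the collection -/

theorem th_el (G : HomExtQuiver (X k)) {i j : Fin 4} (a : G.Arr i j) : th k i j (G.el i j a) ≠ 0 := by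
  intro h
  have h1 : G.el i j a = 0 := th_inj (h.trans (LinearMap.map_zero _).symm)
  have h2 := (G.basis i j).2.1.ne_zero a
  exact h2 (by rw [h1, map_zero])

theorem th_ev (G : HomExtQuiver (X k)) {i j : Fin 4} (p : Path G.Arr i j) : th k i j (ev G p) ≠ 0 := by
  induction p with
  | nil =>
    change th k i i (idH (X k i)) ≠ 0
    rw [th_id]
    exact one_ne_zero
  | cons p a ih =>
    change th k _ _ (comp (ev G p) (G.el _ _ a)) ≠ 0
    rw [th_comp]
    exact mul_ne_zero ih (th_el G a)

theorem exists_arrow (G : HomExtQuiver (X k)) {i j : Fin 4} (h : cov i j) : Nonempty (G.Arr i j) := by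
  by_contra hne
  rw [not_nonempty_iff] at hne
  obtain ⟨x, -, hx⟩ := exists_unit (k := k) i j (cov_le h)
  have h1 := (G.basis i j).2.2 (mem_rad_of_ne (cov_ne h) x)
  rw [Set.range_eq_empty, Submodule.span_empty, bot_sup_eq] at h1
  rw [th_rad2 (cov_between h) h1] at hx
  exact zero_ne_one hx

theorem not_monomial (G : HomExtQuiver (X k)) : ¬ MonomialRelations G := by
  rintro ⟨S, -, hS, hI⟩
  have hno : ∀ (i j : Fin 4), ∀ p ∈ S i j, False := by
    intro i j p hp
    have h1 := hS i j p hp
    have h2 : Finsupp.linearCombination k (fun p : Path G.Arr i j => ev G p) (Finsupp.single p (1 : k)) = 0 := h1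
    rw [Finsupp.linearCombination_single, one_smul] at h2
    exact th_ev G p (by rw [h2]; exact LinearMap.map_zero _)
  have h0 := hI (fun _ _ => ⊥) (by
    intro i i' j j' p q x hx
    rw [Submodule.mem_bot] at hx ⊢
    rw [hx, Finsupp.mapDomain_zero]) (fun i j p hp => (hno i j p hp).elim) 0 3
  obtain ⟨a⟩ := exists_arrow G (i := 0) (j := 1) (by decide)
  obtain ⟨b⟩ := exists_arrow G (i := 1) (j := 3) (by decide)
  obtain ⟨c⟩ := exists_arrow G (i := 0) (j := 2) (by decide)
  obtain ⟨d⟩ := exists_arrow G (i := 2) (j := 3) (by decide)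
  obtain ⟨p, hp⟩ : ∃ p : Path G.Arr 0 3, p = .cons (.cons (.nil 0) a) b := ⟨_, rfl⟩
  obtain ⟨q, hq⟩ : ∃ q : Path G.Arr 0 3, q = .cons (.cons (.nil 0) c) d := ⟨_, rfl⟩
  have hpq : p ≠ q := by
    intro h
    rw [hp, hq] at h
    injection h with h1
    exact absurd h1 (by decide)
  have hx : Finsupp.single p (th k 0 3 (ev G q)) - Finsupp.single q (th k 0 3 (ev G p)) ∈ R G 0 3 := by
    change Finsupp.linearCombination k (fun p : Path G.Arr 0 3 => ev G p) _ = 0
    rw [map_sub, Finsupp.linearCombination_single, Finsupp.linearCombination_single]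
    apply th_inj
    refine (LinearMap.map_sub (th k 0 3) (th k 0 3 (ev G q) • ev G p) (th k 0 3 (ev G p) • ev G q)).trans ?_
    refine Eq.trans ?_ (LinearMap.map_zero _).symm
    refine (congrArg₂ (· - ·) (LinearMap.map_smul (th k 0 3) _ _) (LinearMap.map_smul (th k 0 3) _ _)).trans ?_
    change th k 0 3 (ev G q) * th k 0 3 (ev G p) - th k 0 3 (ev G p) * th k 0 3 (ev G q) = 0
    ring
  have h1 := h0 hx
  rw [Submodule.mem_bot] at h1
  have h2 := DFunLike.congr_fun h1 p
  rw [Finsupp.sub_apply, Finsupp.single_eq_same, Finsupp.single_eq_of_ne hpq, sub_zero, Finsupp.zero_apply] at h2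
  exact th_ev G q h2

/-! ### The collection is exceptional and has a Hom-Ext quiver -/

theorem exists_hom_ext_quiver : Nonempty (HomExtQuiver (X k)) := by
  choose u hu2 hu1 using fun (i j : Fin 4) (h : le i j) => exists_unit (k := k) i j h
  refine ⟨{
    Arr := fun i j => PLift (cov i j)
    el := fun i j a => u i j (cov_le a.down)
    homogeneous := fun i j a => Or.inr (hu2 i j _)
    basis := fun i j => ⟨fun a => mem_rad_of_ne (cov_ne a.down) _, ?_, ?_⟩ }⟩
  · by_cases h : cov i j
    · have : Unique (PLift (cov i j)) := ⟨⟨⟨h⟩⟩, fun a => by cases a; rfl⟩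
      refine LinearIndependent.of_subsingleton (⟨h⟩ : PLift (cov i j)) ?_
      intro h0
      rw [Submodule.mkQ_apply, Submodule.Quotient.mk_eq_zero] at h0
      have h1 := th_rad2 (cov_between h) h0
      rw [hu1] at h1
      exact one_ne_zero h1
    · have : IsEmpty (PLift (cov i j)) := ⟨fun a => h a.down⟩
      exact linearIndependent_empty_type
  · intro x hx
    by_cases h : cov i j
    · refine Submodule.mem_sup_left ?_
      have h1 : x = th k i j x • u i j (cov_le h) := by
        apply th_inj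
        refine Eq.trans ?_ (LinearMap.map_smul (th k i j) _ _).symm
        rw [hu1, smul_eq_mul, mul_one]
      rw [h1]
      exact Submodule.smul_mem _ _ (Submodule.subset_span ⟨⟨h⟩, rfl⟩)
    · refine Submodule.mem_sup_right ?_
      by_cases h2 : i = 0 ∧ j = 3
      · obtain ⟨rfl, rfl⟩ := h2
        have h1 : x = th k 0 3 x • comp (u 0 1 (by decide)) (u 1 3 (by decide)) := by
          apply th_inj
          refine Eq.trans ?_ (LinearMap.map_smul (th k 0 3) _ _).symm
          rw [th_comp, hu1, hu1, smul_eq_mul, mul_one, mul_one]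
        rw [h1]
        exact Submodule.smul_mem _ _ (Submodule.subset_span
          ⟨1, _, mem_rad_of_ne (by decide) _, _, mem_rad_of_ne (by decide) _, rfl⟩)
      · have h3 : th k i j x = 0 := by
          by_cases h4 : i = j
          · subst h4
            exact th_rad_self hx
          · refine th_zero ?_ x
            revert h h2 h4
            revert i j
            clear hu1 hu2 u
            intro i j x hx
            clear hx x
            revert i j
            decide
        have h4 : x = 0 := th_inj (h3.trans (LinearMap.map_zero _).symm)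
        rw [h4]
        exact Submodule.zero_mem _

theorem sub_dich {d : ℕ} (hd : d ≤ 1) (A : Submodule k (Fin d → k)) : A = ⊥ ∨ A = ⊤ := by
  obtain rfl | rfl : d = 0 ∨ d = 1 := by omega
  · exact Or.inl (Subsingleton.elim _ _)
  · by_cases h : A = ⊥
    · exact Or.inl h
    · right
      obtain ⟨x, hx, hx0⟩ := A.ne_bot_iff.1 h
      have hx1 : x 0 ≠ 0 := by
        intro h1
        apply hx0
        funext i
        rw [Subsingleton.elim i 0, h1]
        rfl
      rw [eq_top_iff]
      intro y _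
      have hy : y = (y 0 / x 0) • x := by
        funext i
        rw [Subsingleton.elim i 0, Pi.smul_apply, smul_eq_mul, div_mul_cancel₀ _ hx1]
      rw [hy]
      exact A.smul_mem _ hx

theorem J_inj {e d : ℕ} (hd : d ≤ 1) (he : e = 1) (x : Fin d → k) (h : (J k e d).mulVec x = 0) : x = 0 := by
  subst he
  obtain rfl | rfl : d = 0 ∨ d = 1 := by omega
  · exact Subsingleton.elim _ _
  · have h1 := congrFun h 0
    funext i
    rw [Subsingleton.elim i 0]
    simpa [J, Matrix.mulVec, dotProduct] using h1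

theorem sub_zero_all (i : Fin 4) (A : ∀ v : Fin 4, Submodule k (Fin (dims i v) → k))
    (hA : ∀ a : Fin 3, ∀ x ∈ A a.succ, (J k (dims i 0) (dims i a.succ)).mulVec x ∈ A 0) (h0 : dims i 0 = 1)
    (hA0 : A 0 = ⊥) (v : Fin 4) : A v = ⊥ := by
  rcases Fin.eq_zero_or_eq_succ v with h | ⟨a, h⟩
  · rw [h]; exact hA0
  · rw [h, Submodule.eq_bot_iff]
    intro x hx
    have h1 := hA a x hx
    rw [hA0, Submodule.mem_bot] at h1
    exact J_inj (dims_le i _) h0 x h1

theorem sub_bot_of_dim {d : ℕ} (hd : d = 0) (A : Submodule k (Fin d → k)) : A = ⊥ := by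
  subst hd
  exact Subsingleton.elim _ _

theorem dims_last (i v : Fin 4) (h : dims i 0 ≠ 1) (hv : v ≠ 1) : dims i v = 0 := by
  revert i v; decide

theorem indecomposable_X (i : Fin 4) : Indecomposable (X k i) := by
  refine ⟨⟨(1 : Fin 4), ?_⟩, fun A B hA hB hAB => ?_⟩
  · change dims i 1 ≠ 0
    rw [dims_one]
    exact one_ne_zero
  have hd : ∀ v : Fin 4, A v = ⊥ ∨ B v = ⊥ := by
    intro v
    rcases sub_dich (dims_le i v) (A v) with h | h
    · exact Or.inl h
    · right
      have h1 := (hAB v).disjoint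
      rw [h] at h1
      exact top_disjoint.1 h1
  by_cases h0 : dims i 0 = 1
  · rcases hd 0 with h | h
    · exact Or.inl (sub_zero_all i A hA h0 h)
    · exact Or.inr (sub_zero_all i B hB h0 h)
  · rcases hd 1 with h | h
    · left
      intro v
      by_cases hv : v = (1 : Fin 4)
      · rw [hv]; exact h
      · exact sub_bot_of_dim (dims_last i v h0 hv) _
    · right
      intro v
      by_cases hv : v = (1 : Fin 4)
      · rw [hv]; exact h
      · exact sub_bot_of_dim (dims_last i v h0 hv) _

theorem hom_subsingleton {i j : Fin 4} (h : ¬ le i j) : Subsingleton (Hom (X k i) (X k j)) :=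
  ⟨fun f g => (hom_inj i j f (cf_zero i j h f)).trans (hom_inj i j g (cf_zero i j h g)).symm⟩

theorem exceptional_X : IsExceptionalCollection (X k) := by
  refine ⟨4, Equiv.refl _, fun i => ⟨indecomposable_X i, ext_X i i⟩, fun i j hij =>
    ⟨hom_subsingleton ?_, ext_X i j⟩⟩
  revert i j
  decide

theorem acyclic_d4 : d4.Acyclic := by
  intro v h
  have h1 : ∀ x y : Fin 4, Relation.TransGen (fun x y => ∃ a : d4.A, d4.src a = x ∧ d4.tgt a = y) x y →
      x ≠ 0 ∧ y = 0 := by
    intro x y hxy
    induction hxy with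
    | single hab =>
      obtain ⟨a, h2, h3⟩ := hab
      exact ⟨fun h4 => Fin.succ_ne_zero a (h2.trans h4), h3.symm⟩
    | tail _ hbc ih =>
      obtain ⟨a, h2, h3⟩ := hbc
      exact absurd (h2.trans ih.2) (Fin.succ_ne_zero a)
  exact (h1 v v h).1 (h1 v v h).2

/-- Over every field the quiver of type `D₄` has an exceptional collection of four modules such that for
no choice of its Hom-Ext quiver the ideal of relations is generated by paths. -/
theorem result (k : Type u) [Field k] :
    d4.Acyclic ∧ ∃ X : Fin 4 → Rep k d4, IsExceptionalCollection X ∧ Nonempty (HomExtQuiver X) ∧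
      ∀ G : HomExtQuiver X, ¬ MonomialRelations G :=
  ⟨acyclic_d4, X k, exceptional_X, exists_hom_ext_quiver, not_monomial⟩

end Pool.Agent.Results.MP_2a1499_al.CommutativeSquareD4
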